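import Pool.Agent.H76.SF.Stm

set_option autoImplicit false

namespace H76.SF

open Finset Classical Pool.Agent.Results.MP_705b7e_co.StarForestBounds

theorem upper (hCON : S_CON) (hONE : S_ONE) (hTWO : S_TWO) (k : ℕ) (s : ℕ → ℕ) (hk : 2 ≤ k)
    (hs : ∀ i j, i ≤ j → j < k → s j ≤ s i) (hd : 20 * ((k - 1) * (s 1 + 1)) ≤ s 0) :
    Arrows (2 * s 0 + k - 1) (starForest k s) := by
  intro R
  have hcard : Fintype.card (Fin (2 * s 0 + k - 1)) = 2 * s 0 + (k - 1) := by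
    rw [Fintype.card_fin]
    omega
  have hr : 1 ≤ k - 1 := by omega
  by_cases h1 : ∀ v, (univ.filter (fun x => Rᶜ.Adj v x)).card < s 0
  · exact Or.inl (hCON _ k s hk hs R (hONE _ R (s 0) (k - 1) (s 1) hr hcard hd
      (fun v => by convert h1 v)))
  by_cases h2 : ∀ v, (univ.filter (fun x => R.Adj v x)).card < s 0
  · refine Or.inr (hCON _ k s hk hs Rᶜ (hONE _ Rᶜ (s 0) (k - 1) (s 1) hr hcard hd ?_))
    intro v
    have := h2 v
    simp only [compl_compl]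
    convert this
  push Not at h1 h2
  obtain ⟨v1, hv1⟩ := h1
  obtain ⟨v2, hv2⟩ := h2
  rcases hTWO _ R (s 0) (k - 1) (s 1) hr hcard hd ⟨v2, le_trans hv2 (le_of_eq (by congr))⟩
    ⟨v1, le_trans hv1 (le_of_eq (by congr))⟩ with h | h
  · exact Or.inl (hCON _ k s hk hs R h)
  · exact Or.inr (hCON _ k s hk hs Rᶜ h)

theorem fin (hCON : S_CON) (hONE : S_ONE) (hTWO : S_TWO) (hLOW : S_LOW) :
    (∀ (k : ℕ) (s : ℕ → ℕ), 2 ≤ k → (∀ i j, i ≤ j → j < k → s j ≤ s i) → (∀ i < k, 1 ≤ s i) →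
      20 * ((k - 1) * (s 1 + 1)) ≤ s 0 →
      2 * s 0 + 1 ≤ ramseyNumber (starForest k s) ∧
      (3 ≤ k → s 0 % 2 = 1 → 2 ≤ s 2 → 2 * s 0 + 2 ≤ ramseyNumber (starForest k s)) ∧
      ramseyNumber (starForest k s) ≤ 2 * s 0 + (k - 1)) ∧
    (∀ s : ℕ → ℕ, s 0 % 2 = 1 → 2 ≤ s 2 → s 2 ≤ s 1 → 40 * (s 1 + 1) ≤ s 0 →
      ramseyNumber (starForest 3 s) = 2 * s 0 + 2) := by
  have key : ∀ (k : ℕ) (s : ℕ → ℕ), 2 ≤ k → (∀ i j, i ≤ j → j < k → s j ≤ s i) →
      (∀ i < k, 1 ≤ s i) → 20 * ((k - 1) * (s 1 + 1)) ≤ s 0 →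
      2 * s 0 + 1 ≤ ramseyNumber (starForest k s) ∧
      (3 ≤ k → s 0 % 2 = 1 → 2 ≤ s 2 → 2 * s 0 + 2 ≤ ramseyNumber (starForest k s)) ∧
      ramseyNumber (starForest k s) ≤ 2 * s 0 + (k - 1) := by
    intro k s hk hs hpos hd
    have hA := upper hCON hONE hTWO k s hk hs hd
    refine ⟨(Pool.Agent.Results.MP_705b7e_co.StarForestBounds.result.1 k s hk hs hpos).2.1,
      ?_, ?_⟩
    · intro h3 hodd h2
      have := lt_ramsey (N := 2 * s 0 + 1) hA
        (fun h => hLOW s hodd h2 (hs 1 2 (by norm_num) (by omega)) (h.sub h3))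
      omega
    · have h2 : 2 * s 0 + k - 1 = 2 * s 0 + (k - 1) := by omega
      rw [h2] at hA
      exact Nat.sInf_le hA
  refine ⟨key, ?_⟩
  intro s hodd h2 h12 hd
  have hs : ∀ i j, i ≤ j → j < 3 → s j ≤ s i := by
    intro i j hij hj
    interval_cases j
    · have : i = 0 := by omega
      subst this
      exact le_rfl
    · interval_cases i
      · omega
      · exact le_rfl
    · interval_cases i
      · omega
      · exact h12
      · exact le_rfl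
  have hpos : ∀ i < 3, 1 ≤ s i := by
    intro i hi
    interval_cases i <;> omega
  have h := key 3 s (by norm_num) hs hpos (by omega)
  have h1 := h.2.1 le_rfl hodd h2
  have h3 := h.2.2
  omega

end H76.SF
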