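import Pool.Agent.H76.SF.Stm

set_option autoImplicit false

/-! CREW SF, round 2: the general lower bound. -/

namespace H76.SF

open Finset Classical Pool.Agent.Results.MP_705b7e_co.StarForestBounds

/-- REG (80 lines). Regular graphs: `a < m`, `m a` even: an `a`-regular graph on `Fin m`. Circulant graph on
`ZMod m` (`m ≥ 1`, or `Fin m` with arithmetic mod `m`): `a = 2 b` even: differences `± 1, ..., ± b` (`2 b < m`, so
these `2b` classes are different and not 0); `a = 2 b + 1` odd and `m = 2 h` even: differences `± 1, ..., ± b` and
`h` (`b < h`). (Or by induction / any other construction: e.g. `a ≤ 1`-factors.) -/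
def S_REG : Prop := ∀ m a : ℕ, a < m → Even (m * a) →
  ∃ H : SimpleGraph (Fin m), ∀ v, (univ.filter (fun x => H.Adj v x)).card = a

/-- LOG (100 lines, hyp REG). `n = s 0`, `U = Fin (n + a)`, `W = Fin (n + b)`, `Fin (2 n + a + b) ≃ U ⊕ W`
(`finSumFinEquiv`, `Fin.castOrderIso`). Red: all pairs between `U` and `W`, an `a`-regular graph inside `U`, a
`b`-regular graph inside `W` (REG; `n ≥ 1`). A vertex of `U` has `n + a - 1 - a = n - 1` blue neighbours, the same
for `W`: no blue `K_{1,n}`. Suppose there is a red copy of the star forest; let the centre of star 0 be in `U` (the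
other case is the same with `U, W` exchanged). At most `a` of its `n` leaves are in `U`, so at least `n - a` are in
`W` and at most `(n + b) - (n - a) = a + b` vertices of `W` are not leaves of star 0. Every other star `i` has a
vertex in `W` : its centre, or, if the centre is in `U`, one of its `s i > a` leaves (at most `a` are in `U`). These
`k - 1` vertices are different and not leaves of star 0, so `k - 1 ≤ a + b`: contradiction. -/
def S_LOG : Prop := ∀ (k : ℕ) (s : ℕ → ℕ) (a b : ℕ), a + b + 2 ≤ k → (∀ i < k, a < s i ∧ b < s i) →
  Even ((s 0 + a) * a) → Even ((s 0 + b) * b) → ¬ Arrows (2 * s 0 + a + b) (starForest k s)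

end H76.SF
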