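import Pool.Agent.H76.SF.FIN
import Pool.Agent.H76.SF.Stm2

set_option autoImplicit false

namespace H76.SF

open Finset Classical Pool.Agent.Results.MP_705b7e_co.StarForestBounds

theorem lower (hLOG : S_LOG) (j : ℕ) (s : ℕ → ℕ) (hj : 2 ≤ j) (hs : ∀ i < j, j / 2 < s i)
    (hp : j % 2 = 0 ∨ s 0 % 2 = 1) : ¬ Arrows (2 * s 0 + (j - 2)) (starForest j s) := by
  have main : ∃ a b : ℕ, a + b + 2 = j ∧ a ≤ j / 2 ∧ b ≤ j / 2 ∧ Even ((s 0 + a) * a) ∧
      Even ((s 0 + b) * b) := by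
    have em : ∀ x y : ℕ, (x % 2 = 0 ∨ y % 2 = 0) → Even (x * y) := by
      intro x y h
      rw [Nat.even_mul, Nat.even_iff, Nat.even_iff]
      exact h
    rcases Nat.mod_two_eq_zero_or_one j with h | h
    · obtain ⟨i, rfl⟩ : ∃ i, j = 2 * i + 2 := ⟨j / 2 - 1, by omega⟩
      by_cases hc : (s 0 + i) % 2 = 0 ∨ i % 2 = 0
      · exact ⟨i, i, by omega, by omega, by omega, em _ _ hc, em _ _ hc⟩
      · have h1 : ¬ i % 2 = 0 := fun h => hc (Or.inr h)
        exact ⟨i + 1, i - 1, by omega, by omega, by omega, em _ _ (Or.inr (by omega)),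
          em _ _ (Or.inr (by omega))⟩
    · obtain ⟨i, rfl⟩ : ∃ i, j = 2 * i + 3 := ⟨(j - 3) / 2, by omega⟩
      refine ⟨i + 1, i, by omega, by omega, by omega, em _ _ ?_, em _ _ ?_⟩
      · omega
      · omega
  obtain ⟨a, b, hab, ha, hb, h1, h2⟩ := main
  have h := hLOG j s a b (by omega) (fun i hi => ⟨lt_of_le_of_lt ha (hs i hi),
    lt_of_le_of_lt hb (hs i hi)⟩) h1 h2
  have e : 2 * s 0 + a + b = 2 * s 0 + (j - 2) := by omega
  rwa [e] at h

theorem fin2 (hCON : S_CON) (hONE : S_ONE) (hTWO : S_TWO) (hLOG : S_LOG) :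
    ∀ (k : ℕ) (s : ℕ → ℕ), 2 ≤ k → (∀ i j, i ≤ j → j < k → s j ≤ s i) → (∀ i < k, 1 ≤ s i) →
      20 * ((k - 1) * (s 1 + 1)) ≤ s 0 →
      2 * s 0 + 1 ≤ ramseyNumber (starForest k s) ∧
      (∀ j, 2 ≤ j → j ≤ k → j / 2 < s (j - 1) → (j % 2 = 0 ∨ s 0 % 2 = 1) →
        2 * s 0 + (j - 1) ≤ ramseyNumber (starForest k s)) ∧
      ramseyNumber (starForest k s) ≤ 2 * s 0 + (k - 1) ∧
      (k / 2 < s (k - 1) → (k % 2 = 0 ∨ s 0 % 2 = 1) →
        ramseyNumber (starForest k s) = 2 * s 0 + (k - 1)) := by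
  intro k s hk hs hpos hd
  have hA := upper hCON hONE hTWO k s hk hs hd
  have hup : ramseyNumber (starForest k s) ≤ 2 * s 0 + (k - 1) := by
    have h2 : 2 * s 0 + k - 1 = 2 * s 0 + (k - 1) := by omega
    rw [h2] at hA
    exact Nat.sInf_le hA
  have hlow : ∀ j, 2 ≤ j → j ≤ k → j / 2 < s (j - 1) → (j % 2 = 0 ∨ s 0 % 2 = 1) →
        2 * s 0 + (j - 1) ≤ ramseyNumber (starForest k s) := by
    intro j hj hjk hsj hp
    have hN := lower hLOG j s hj (fun i hi => lt_of_lt_of_le hsj (hs i (j - 1) (by omega)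
      (by omega))) hp
    have := lt_ramsey (N := 2 * s 0 + (j - 2)) hA (fun h => hN (h.sub hjk))
    omega
  refine ⟨(Pool.Agent.Results.MP_705b7e_co.StarForestBounds.result.1 k s hk hs hpos).2.1,
    hlow, hup, ?_⟩
  intro h1 h2
  exact le_antisymm hup (hlow k hk le_rfl h1 h2)

end H76.SF
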