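import Pool.Agent.H76.SF.Stm

set_option autoImplicit false

namespace H1.SF

open Finset Classical H76.SF

theorem greedy {V : Type} (r q : ℕ) (B : Fin r → Finset V) (hB : ∀ i, r * q ≤ (B i).card)
    (s : Finset (Fin r)) : ∃ A : Fin r → Finset V, (∀ i ∈ s, A i ⊆ B i ∧ (A i).card = q) ∧
      ∀ i ∈ s, ∀ j ∈ s, i ≠ j → Disjoint (A i) (A j) := by
  induction s using Finset.induction_on with
  | empty => exact ⟨fun _ => ∅, by simp, by simp⟩
  | insert a s ha ih =>
    obtain ⟨A, h1, h2⟩ := ih
    have hU : (s.biUnion A).card ≤ s.card * q :=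
      Finset.card_biUnion_le_card_mul s A q (fun i hi => (h1 i hi).2.le)
    have hs : s.card + 1 ≤ r := by
      have := Finset.card_le_univ (insert a s)
      rwa [Finset.card_insert_of_notMem ha, Fintype.card_fin] at this
    have hd : q ≤ (B a \ s.biUnion A).card := by
      have e1 := Finset.le_card_sdiff (s.biUnion A) (B a)
      have e2 := hB a
      have e3 : (s.card + 1) * q ≤ r * q := Nat.mul_le_mul_right q hs
      have e4 : (s.card + 1) * q = s.card * q + q := by ring
      omega
    obtain ⟨X, hX, hXc⟩ := Finset.exists_subset_card_eq hd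
    have hXs : ∀ i ∈ s, Disjoint X (A i) := by
      intro i hi
      rw [Finset.disjoint_left]
      intro x hx hxA
      have := (Finset.mem_sdiff.mp (hX hx)).2
      exact this (Finset.mem_biUnion.mpr ⟨i, hi, hxA⟩)
    refine ⟨Function.update A a X, ?_, ?_⟩
    · intro i hi
      by_cases hia : i = a
      · subst hia
        rw [Function.update_self]
        exact ⟨hX.trans Finset.sdiff_subset, hXc⟩
      · rw [Function.update_of_ne hia]
        exact h1 i ((Finset.mem_insert.mp hi).resolve_left hia)
    · intro i hi j hj hij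
      by_cases hia : i = a
      · subst hia
        rw [Function.update_self, Function.update_of_ne (Ne.symm hij)]
        exact hXs j ((Finset.mem_insert.mp hj).resolve_left (Ne.symm hij))
      · by_cases hja : j = a
        · subst hja
          rw [Function.update_self, Function.update_of_ne hij]
          exact (hXs i ((Finset.mem_insert.mp hi).resolve_left hia)).symm
        · rw [Function.update_of_ne hia, Function.update_of_ne hja]
          exact h2 i ((Finset.mem_insert.mp hi).resolve_left hia) j
            ((Finset.mem_insert.mp hj).resolve_left hja) hij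

theorem t_GRE : S_GRE := by
  intro V _ G n r q c L u hL hLc hu hul hdeg
  let B : Fin r → Finset V := fun i =>
    (univ.filter (fun x => G.Adj (u i) x ∧ x ∉ L ∧ x ≠ c)) \ (univ.image u)
  have hB : ∀ i, r * q ≤ (B i).card := by
    intro i
    have e1 := Finset.le_card_sdiff (univ.image u)
      (univ.filter (fun x => G.Adj (u i) x ∧ x ∉ L ∧ x ≠ c))
    have e2 : (univ.image u).card ≤ r := by
      have := Finset.card_image_le (s := (univ : Finset (Fin r))) (f := u)
      rwa [Finset.card_univ, Fintype.card_fin] at this
    have e3 := hdeg i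
    have e4 : r * (q + 1) = r * q + r := by ring
    show r * q ≤ ((univ.filter (fun x => G.Adj (u i) x ∧ x ∉ L ∧ x ≠ c)) \ (univ.image u)).card
    omega
  obtain ⟨A, hA, hd⟩ := greedy r q B hB univ
  refine ⟨c, L, u, A, hL, hLc, hu, hul, ?_, ?_⟩
  · intro i
    obtain ⟨hs, hc⟩ := hA i (Finset.mem_univ i)
    have key : ∀ x ∈ A i, (G.Adj (u i) x ∧ x ∉ L ∧ x ≠ c) ∧ x ∉ univ.image u := by
      intro x hx
      have := Finset.mem_sdiff.mp (hs hx)
      exact ⟨(Finset.mem_filter.mp this.1).2, this.2⟩
    refine ⟨hc, fun x hx => (key x hx).1.1, fun hcA => (key c hcA).1.2.2 rfl, ?_, ?_⟩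
    · rw [Finset.disjoint_left]
      exact fun x hx => (key x hx).1.2.1
    · intro j hj
      exact (key (u j) hj).2 (Finset.mem_image_of_mem u (Finset.mem_univ j))
  · intro i j hij
    exact hd i (Finset.mem_univ i) j (Finset.mem_univ j) hij

end H1.SF
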