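import Pool.Graph.R_seed8.Results.MP_705b7e_co.StarForestBounds

set_option autoImplicit false

/-! CREW SF (helper76), MP_705b7e_co: Ramsey numbers of star forests with a dominating star:
`2 n_1 + 1 ≤ r(F) ≤ 2 n_1 + k - 1`, and `r(F) = 2 n_1 + 2` for three stars, `n_1` odd, `n_3 ≥ 2`. -/

namespace H76.SF

open Finset Classical Pool.Agent.Results.MP_705b7e_co.StarForestBounds

/-- `G` contains a star with `n` leaves and `r` further stars with `q` leaves, all disjoint -/
def HasF {V : Type} (G : SimpleGraph V) (n r q : ℕ) : Prop :=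
  ∃ (c : V) (L : Finset V) (u : Fin r → V) (A : Fin r → Finset V),
    L.card = n ∧ (∀ x ∈ L, G.Adj c x) ∧ Function.Injective u ∧ (∀ i, u i ≠ c ∧ u i ∉ L) ∧
    (∀ i, (A i).card = q ∧ (∀ x ∈ A i, G.Adj (u i) x) ∧ c ∉ A i ∧ Disjoint (A i) L ∧ ∀ j, u j ∉ A i) ∧
    (∀ i j, i ≠ j → Disjoint (A i) (A j))

/-- GRE (60 lines). Greedy choice of the leaf sets: choose `A 0, A 1, ...` one after the other inside
`{x | Adj (u i) x, x ∉ L, x ≠ c}` minus the `u j` (`≤ r` vertices) minus the leaves chosen before (`≤ (r-1) q`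
vertices); what remains has at least `q` elements. (Induction on `t ≤ r` : sets `A i` for `i < t`, or use
Hall / `Finset.exists_subset_card_eq`.) -/
def S_GRE : Prop := ∀ (V : Type) [Fintype V] (G : SimpleGraph V) (n r q : ℕ) (c : V) (L : Finset V)
  (u : Fin r → V), L.card = n → (∀ x ∈ L, G.Adj c x) → Function.Injective u →
  (∀ i, u i ≠ c ∧ u i ∉ L) →
  (∀ i, r * (q + 1) ≤ (univ.filter (fun x => G.Adj (u i) x ∧ x ∉ L ∧ x ≠ c)).card) → HasF G n r q

/-- CON (60 lines). `HasF` gives a copy of the star forest: centre 0 is `c`, its leaves are in `L`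
(`L.card = s 0`), the centre of star `i + 1` is `u i`, its `s (i+1) ≤ s 1` leaves are in `A i`.
(`L.equivFin`-type injections `Fin (s i) → V`; vertices of `starForest k s` are `⟨i, none⟩`, `⟨i, some a⟩`.)
`G.IsContained R` = `Nonempty (SimpleGraph.Copy G R)`; see `contained_of_pack` in the imported file. -/
def S_CON : Prop := ∀ (N k : ℕ) (s : ℕ → ℕ), 2 ≤ k → (∀ i j, i ≤ j → j < k → s j ≤ s i) →
  ∀ R : SimpleGraph (Fin N), HasF R (s 0) (k - 1) (s 1) → (starForest k s).IsContained R

/-- SPA (50 lines, hyp GRE). If `v` has at least `n` neighbours and there is no `HasF`, then there is a set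
`W` with `|W| + n + 1 = |V|` such that fewer than `r` vertices of `W` have `r (q+1)` or more neighbours in `W`.
(`L` = any `n` neighbours of `v`, `W` = the complement of `{v} ∪ L`; otherwise choose `r` of these vertices
as `u` and use GRE.) -/
def S_SPA : Prop := ∀ (V : Type) [Fintype V] (G : SimpleGraph V) (n r q : ℕ) (v : V), 1 ≤ r →
  n ≤ (univ.filter (fun x => G.Adj v x)).card → ¬ HasF G n r q →
  ∃ W : Finset V, W.card + n + 1 = Fintype.card V ∧
    (W.filter (fun w => r * (q + 1) ≤ (W.filter (fun x => G.Adj w x)).card)).card < r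

/-- ONE (100 lines, hyp GRE, SPA). `m = r (q+1)`. Every vertex has at most `n - 1` non-neighbours (others), so
degree `≥ n + r`. Suppose no `HasF`. SPA (any `v`) gives `W`, `|W| = n + r - 1`; let `T ⊆ W` be the (at least `n`)
typical vertices (degree `< m` in `W`), `U` = complement of `W`, `|U| = n + 1`. A typical `w` has
`> n + r - 2 - m` non-neighbours in `W`, so fewer than `m` non-neighbours in `U`. Call `u ∈ U` bad if it has `≤ 2m`
neighbours in `W`; then it has `≥ n - 2m` non-neighbours in `T`; double counting the non-adjacent pairs `T × U`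
(take exactly `n` typical vertices): `#bad * (n - 2m) ≤ n * m`, so `#bad ≤ 2m`. Fix `w ∈ T`; it has
`≥ n + 1 - m - 2m ≥ r` good neighbours in `U`; take `r` of them as `u`; `w` has `≥ n` other neighbours; take `n` of
them as `L` with `c = w`; fewer than `m` elements of `L` are in `W`, so each `u i` keeps `≥ 2m + 1 - m - 1 = m`
neighbours in `W` outside `L`, different from `w`. GRE gives `HasF`. -/
def S_ONE : Prop := ∀ (V : Type) [Fintype V] (G : SimpleGraph V) (n r q : ℕ), 1 ≤ r →
  Fintype.card V = 2 * n + r → 20 * (r * (q + 1)) ≤ n →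
  (∀ v, (univ.filter (fun x => Gᶜ.Adj v x)).card < n) → HasF G n r q

/-- OUT (60 lines, hyp GRE). Let `W` be a set with `|W| + n + 1 = |V| = 2 n + r` and fewer than `r` vertices of
`W` with `≥ m = r (q+1)` `G`-neighbours in `W` (so `W` is almost complete in `Gᶜ`). If `¬ HasF Gᶜ n r q`, then
every typical `w ∈ W` (fewer than `m` `G`-neighbours in `W`) has fewer than `4 m` `Gᶜ`-neighbours outside of `W`.
(Otherwise take `L` = `4 m` of these and `n - 4m` of the `> n + r - 2 - m` `Gᶜ`-neighbours in `W`; at least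
`4 m + r - 2` vertices of `W` other than `w` are not in `L`, at least `r` of them typical; these have
`≥ 4m + r - 3 - m ≥ m` `Gᶜ`-neighbours among the others; GRE for `Gᶜ`.) -/
def S_OUT : Prop := ∀ (V : Type) [Fintype V] (G : SimpleGraph V) (n r q : ℕ), 1 ≤ r →
  Fintype.card V = 2 * n + r → 20 * (r * (q + 1)) ≤ n → ¬ HasF Gᶜ n r q →
  ∀ W : Finset V, W.card + n + 1 = Fintype.card V →
    (W.filter (fun w => r * (q + 1) ≤ (W.filter (fun x => G.Adj w x)).card)).card < r →
    ∀ w ∈ W, (W.filter (fun x => G.Adj w x)).card < r * (q + 1) →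
      (univ.filter (fun x => Gᶜ.Adj w x ∧ x ∉ W)).card < 4 * (r * (q + 1))

/-- TWO (80 lines, hyp SPA, OUT). Let no `HasF` exist in both colours and both colours have a vertex of degree
`≥ n`. SPA gives `W` for `G` and `W'` for `Gᶜ`, `|W| = |W'| = n + r - 1`. `T ⊆ W`, `T' ⊆ W'` typical.
`|T ∩ T'| ≤ 4 m` : a vertex of `T ∩ T'` has fewer than `m` `G`-neighbours and fewer than `m` `Gᶜ`-neighbours in
`T ∩ T'`. Let `P = T \ W'`, `P' = T' \ W` : `|W ∩ W'| ≤ |T ∩ T'| + 2 r ≤ 6 m`, so `|P|, |P'| ≥ n - 8 m`. By OUT each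
`w ∈ P` has `< 4m` `Gᶜ`-neighbours in `P'`, each `w' ∈ P'` has `< 4 m` `G`-neighbours in `P`. Choose exactly `h = 9 m`
vertices of both (`n - 8m ≥ 9m`): the `h^2` pairs are `≤ 4 m h + 4 m h = 8 m h < h^2`. -/
def S_TWO : Prop := ∀ (V : Type) [Fintype V] (G : SimpleGraph V) (n r q : ℕ), 1 ≤ r →
  Fintype.card V = 2 * n + r → 20 * (r * (q + 1)) ≤ n →
  (∃ v, n ≤ (univ.filter (fun x => G.Adj v x)).card) →
  (∃ v, n ≤ (univ.filter (fun x => Gᶜ.Adj v x)).card) → HasF G n r q ∨ HasF Gᶜ n r q

/-- LOW (100 lines). `n` odd, three stars `s 0 = n`, `s 1 ≥ s 2 ≥ 2`. Colouring of `Fin (2n+1)`: red = all pairs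
`i ≤ n < j`, and the pairs `{2 i, 2 i + 1}` inside `{0, ..., n}` (`n + 1` even). Blue degrees are `≤ n - 1`, so no
blue `K_{1,n}`. Red: three disjoint stars with centres `c_0` (`n` leaves), `c_1`, `c_2` (`≥ 2` leaves each).
If `c_0 ≤ n`: its leaves are among the `n` vertices `j > n` and its partner, so at most one vertex `j > n` is free
for the rest; `c_1` and `c_2` : each has two leaves; if `c_i ≤ n` one of its two leaves is `> n` (only one partner),
if `c_i > n` then `c_i` itself is `> n` : two different vertices `> n`, contradiction. If `c_0 > n`: its leaves are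
`n` of the `n + 1` vertices `≤ n`, exactly one vertex `≤ n` is left; `c_i` or a leaf of `c_i` is `≤ n` for both
`i = 1, 2` (no red edges inside `{j > n}`), contradiction. -/
def S_LOW : Prop := ∀ s : ℕ → ℕ, s 0 % 2 = 1 → 2 ≤ s 2 → s 2 ≤ s 1 → ¬ Arrows (2 * s 0 + 1) (starForest 3 s)

end H76.SF
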